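import Mathlib

set_option autoImplicit false

namespace Pool.Agent.Results.MP_8db9bd_an.HilbertIndex

open scoped InnerProductSpace

universe u

/-- The norm of the `k`-homogeneous polynomial `x ↦ A (x, …, x)`: the supremum of its norm over
the unit sphere. -/
noncomputable def polyNorm {X : Type u} [NormedAddCommGroup X] [NormedSpace ℂ X] {k : ℕ}
    (A : ContinuousMultilinearMap ℂ (fun _ : Fin k => X) X) : ℝ :=
  sSup {r : ℝ | ∃ x : X, ‖x‖ = 1 ∧ r = ‖A (fun _ => x)‖}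

/-- The numerical radius of the `k`-homogeneous polynomial `x ↦ A (x, …, x)`. -/
noncomputable def polyRadius {X : Type u} [NormedAddCommGroup X] [NormedSpace ℂ X] {k : ℕ}
    (A : ContinuousMultilinearMap ℂ (fun _ : Fin k => X) X) : ℝ :=
  sSup {r : ℝ | ∃ (x : X) (f : X →L[ℂ] ℂ), ‖x‖ = 1 ∧ ‖f‖ = 1 ∧ f x = 1 ∧
    r = ‖f (A (fun _ => x))‖}

/-- The polynomial numerical index of order `k` of the complex normed space `X`. -/
noncomputable def polyIndex (k : ℕ) (X : Type u) [NormedAddCommGroup X] [NormedSpace ℂ X] : ℝ :=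
  sInf {r : ℝ | ∃ A : ContinuousMultilinearMap ℂ (fun _ : Fin k => X) X,
    polyNorm A = 1 ∧ r = polyRadius A}

section General

variable {X : Type u} [NormedAddCommGroup X] [NormedSpace ℂ X] {k : ℕ}

lemma apply_le (A : ContinuousMultilinearMap ℂ (fun _ : Fin k => X) X) (x : X) :
    ‖A (fun _ => x)‖ ≤ ‖A‖ * ‖x‖ ^ k := by
  calc ‖A (fun _ => x)‖ ≤ ‖A‖ * ∏ _i : Fin k, ‖x‖ := A.le_opNorm _
    _ = ‖A‖ * ‖x‖ ^ k := by simp

lemma polyNorm_bdd (A : ContinuousMultilinearMap ℂ (fun _ : Fin k => X) X) :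
    BddAbove {r : ℝ | ∃ x : X, ‖x‖ = 1 ∧ r = ‖A (fun _ => x)‖} := by
  refine ⟨‖A‖, ?_⟩
  rintro _ ⟨x, hx, rfl⟩
  calc ‖A (fun _ => x)‖ ≤ ‖A‖ * ‖x‖ ^ k := apply_le A x
    _ = ‖A‖ := by rw [hx, one_pow, mul_one]

lemma le_polyNorm (A : ContinuousMultilinearMap ℂ (fun _ : Fin k => X) X) (x : X)
    (hx : ‖x‖ = 1) : ‖A (fun _ => x)‖ ≤ polyNorm A :=
  le_csSup (polyNorm_bdd A) ⟨x, hx, rfl⟩

lemma polyNorm_le (A : ContinuousMultilinearMap ℂ (fun _ : Fin k => X) X) (c : ℝ) (hc : 0 ≤ c)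
    (h : ∀ x : X, ‖x‖ = 1 → ‖A (fun _ => x)‖ ≤ c) : polyNorm A ≤ c := by
  refine Real.sSup_le ?_ hc
  rintro _ ⟨x, hx, rfl⟩
  exact h x hx

lemma polyNorm_nonneg (A : ContinuousMultilinearMap ℂ (fun _ : Fin k => X) X) :
    0 ≤ polyNorm A := by
  apply Real.sSup_nonneg
  rintro _ ⟨x, -, rfl⟩
  exact norm_nonneg _

lemma polyRadius_bdd (A : ContinuousMultilinearMap ℂ (fun _ : Fin k => X) X) :
    BddAbove {r : ℝ | ∃ (x : X) (f : X →L[ℂ] ℂ), ‖x‖ = 1 ∧ ‖f‖ = 1 ∧ f x = 1 ∧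
      r = ‖f (A (fun _ => x))‖} := by
  refine ⟨polyNorm A, ?_⟩
  rintro _ ⟨x, f, hx, hf, -, rfl⟩
  calc ‖f (A (fun _ => x))‖ ≤ ‖f‖ * ‖A (fun _ => x)‖ := f.le_opNorm _
    _ = ‖A (fun _ => x)‖ := by rw [hf, one_mul]
    _ ≤ polyNorm A := le_polyNorm A x hx

lemma le_polyRadius (A : ContinuousMultilinearMap ℂ (fun _ : Fin k => X) X) (x : X)
    (f : X →L[ℂ] ℂ) (hx : ‖x‖ = 1) (hf : ‖f‖ = 1) (hfx : f x = 1) :
    ‖f (A (fun _ => x))‖ ≤ polyRadius A :=
  le_csSup (polyRadius_bdd A) ⟨x, f, hx, hf, hfx, rfl⟩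

lemma polyRadius_nonneg (A : ContinuousMultilinearMap ℂ (fun _ : Fin k => X) X) :
    0 ≤ polyRadius A := by
  apply Real.sSup_nonneg
  rintro _ ⟨x, f, -, -, -, rfl⟩
  exact norm_nonneg _

lemma polyRadius_le (A : ContinuousMultilinearMap ℂ (fun _ : Fin k => X) X) (c : ℝ) (hc : 0 ≤ c)
    (h : ∀ (x : X) (f : X →L[ℂ] ℂ), ‖x‖ = 1 → ‖f‖ = 1 → f x = 1 →
      ‖f (A (fun _ => x))‖ ≤ c) : polyRadius A ≤ c := by
  refine Real.sSup_le ?_ hc
  rintro _ ⟨x, f, hx, hf, hfx, rfl⟩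
  exact h x f hx hf hfx

lemma polyIndex_eq (c : ℝ) (hc : 0 < c)
    (h1 : ∀ (A : ContinuousMultilinearMap ℂ (fun _ : Fin k => X) X) (x : X), ‖x‖ = 1 →
      c * ‖A (fun _ => x)‖ ≤ polyRadius A)
    (h2 : ∃ A : ContinuousMultilinearMap ℂ (fun _ : Fin k => X) X,
      polyNorm A = 1 ∧ polyRadius A ≤ c) : polyIndex k X = c := by
  have key : ∀ A : ContinuousMultilinearMap ℂ (fun _ : Fin k => X) X, polyNorm A = 1 →
      c ≤ polyRadius A := by
    intro A hA
    have h3 : polyNorm A ≤ polyRadius A / c := by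
      apply polyNorm_le A _ (div_nonneg (polyRadius_nonneg A) hc.le)
      intro x hx
      rw [le_div_iff₀ hc, mul_comm]
      exact h1 A x hx
    rw [hA, le_div_iff₀ hc, one_mul] at h3
    exact h3
  obtain ⟨A, hA, hA'⟩ := h2
  apply IsLeast.csInf_eq
  constructor
  · exact ⟨A, hA, le_antisymm (key A hA) hA'⟩
  · rintro _ ⟨B, hB, rfl⟩
    exact key B hB

lemma apply_smul (A : ContinuousMultilinearMap ℂ (fun _ : Fin k => X) X) (c : ℂ) (x : X) :
    A (fun _ => c • x) = c ^ k • A (fun _ => x) := by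
  have := A.map_smul_univ (fun _ => c) (fun _ => x)
  simpa using this

end General

section Hilbert

variable {H : Type u} [NormedAddCommGroup H] [InnerProductSpace ℂ H] {k : ℕ}

lemma inner_le_radius_unit (A : ContinuousMultilinearMap ℂ (fun _ : Fin k => H) H) (x : H)
    (hx : ‖x‖ = 1) : ‖⟪x, A (fun _ => x)⟫_ℂ‖ ≤ polyRadius A := by
  have := le_polyRadius A x (innerSL ℂ x) hx (by rw [innerSL_apply_norm, hx])
    (by rw [innerSL_apply_apply, inner_self_eq_norm_sq_to_K, hx]; simp)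
  simpa using this

lemma inner_le_radius (A : ContinuousMultilinearMap ℂ (fun _ : Fin k => H) H) (x : H) :
    ‖⟪x, A (fun _ => x)⟫_ℂ‖ ≤ polyRadius A * ‖x‖ ^ (k + 1) := by
  by_cases hx : x = 0
  · subst hx
    simp
  · have hn : (0 : ℝ) < ‖x‖ := norm_pos_iff.mpr hx
    set y : H := ((‖x‖⁻¹ : ℝ) : ℂ) • x with hy
    have hy1 : ‖y‖ = 1 := by
      rw [hy, norm_smul, Complex.norm_real, norm_inv, norm_norm, inv_mul_cancel₀ hn.ne']
    have hxy : x = ((‖x‖ : ℝ) : ℂ) • y := by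
      rw [hy, smul_smul, ← Complex.ofReal_mul, mul_inv_cancel₀ hn.ne']
      simp
    have h1 := inner_le_radius_unit A y hy1
    have h2 : ‖⟪x, A (fun _ => x)⟫_ℂ‖ = ‖x‖ ^ (k + 1) * ‖⟪y, A (fun _ => y)⟫_ℂ‖ := by
      have h3 : A (fun _ => x) = ((‖x‖ : ℝ) : ℂ) ^ k • A (fun _ => y) := by
        rw [← apply_smul, ← hxy]
      have h4 : ⟪x, A (fun _ => x)⟫_ℂ =
          (starRingEnd ℂ) ((‖x‖ : ℝ) : ℂ) * (((‖x‖ : ℝ) : ℂ) ^ k * ⟪y, A (fun _ => y)⟫_ℂ) := by
        rw [h3, ← inner_smul_right, ← inner_smul_left, ← hxy]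
      rw [h4, norm_mul, norm_mul, Complex.norm_conj, norm_pow, Complex.norm_real, norm_norm]
      ring
    rw [h2, mul_comm]
    gcongr

/-- The main estimate, by the maximum modulus principle. -/
lemma main_estimate (A : ContinuousMultilinearMap ℂ (fun _ : Fin k => H) H) (x y : H)
    (hx : ‖x‖ = 1) (hy : ‖y‖ = 1) (r : ℝ) (hr : 0 < r) :
    r * ‖⟪y, A (fun _ => x)⟫_ℂ‖ ≤ polyRadius A * √(1 + r ^ 2) ^ (k + 1) := by
  set α : ℝ := √(1 + r ^ 2) with hα
  have hα2 : α ^ 2 = 1 + r ^ 2 := Real.sq_sqrt (by positivity)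
  have hαpos : 0 < α := Real.sqrt_pos.mpr (by positivity)
  set c : ℂ := ⟪x, y⟫_ℂ with hc
  have hc1 : ‖c‖ ≤ 1 := by
    have := norm_inner_le_norm (𝕜 := ℂ) x y
    rwa [hx, hy, mul_one] at this
  set β : ℂ := (r : ℂ) * c / (α : ℂ) with hβ
  have hβn : ‖β‖ < α := by
    rw [hβ, norm_div, norm_mul, Complex.norm_real, Complex.norm_real, Real.norm_of_nonneg hr.le,
      Real.norm_of_nonneg hαpos.le, div_lt_iff₀ hαpos]
    have h1 : r * ‖c‖ ≤ r := by nlinarith
    nlinarith [sq_nonneg (r - 1)]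
  set U : ℂ → H := fun z => x + ((r : ℂ) * z) • y with hU
  set G : ℂ → ℂ := fun z => z * ⟪x, A (fun _ => U z)⟫_ℂ + (r : ℂ) * ⟪y, A (fun _ => U z)⟫_ℂ
    with hG
  set F : ℂ → ℂ := fun z => G z / ((α : ℂ) + β * z) ^ (k + 1) with hF
  have hne : ∀ z : ℂ, ‖z‖ ≤ 1 → (α : ℂ) + β * z ≠ 0 := by
    intro z hz h0
    have h1 : (α : ℂ) = -(β * z) := by linear_combination h0
    have h2 : ‖(α : ℂ)‖ = ‖β‖ * ‖z‖ := by rw [h1, norm_neg, norm_mul]
    rw [Complex.norm_real, Real.norm_of_nonneg hαpos.le] at h2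
    nlinarith [norm_nonneg β, norm_nonneg z]
  have hUd : Differentiable ℂ U := by
    rw [hU]
    fun_prop
  have hAd : Differentiable ℂ (fun z => A (fun _ => U z)) := by
    have h1 : Differentiable ℂ (fun z => (fun _ : Fin k => U z)) :=
      differentiable_pi.mpr (fun _ => hUd)
    have h2 : Differentiable ℂ A := (A.contDiff (n := 1)).differentiable (by simp)
    exact h2.comp h1
  have hGd : Differentiable ℂ G := by
    have h1 : Differentiable ℂ (fun z => ⟪x, A (fun _ => U z)⟫_ℂ) :=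
      (innerSL ℂ x).differentiable.comp hAd
    have h2 : Differentiable ℂ (fun z => ⟪y, A (fun _ => U z)⟫_ℂ) :=
      (innerSL ℂ y).differentiable.comp hAd
    exact (differentiable_id.mul h1).add (h2.const_mul _)
  have hFd : DiffContOnCl ℂ F (Metric.ball 0 1) := by
    apply DifferentiableOn.diffContOnCl
    rw [closure_ball _ one_ne_zero]
    intro z hz
    apply DifferentiableAt.differentiableWithinAt
    have hz' : ‖z‖ ≤ 1 := by simpa using hz
    apply DifferentiableAt.div (hGd z)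
    · fun_prop
    · exact pow_ne_zero _ (hne z hz')
  have hbd : ∀ z ∈ frontier (Metric.ball (0 : ℂ) 1), ‖F z‖ ≤ polyRadius A := by
    intro z hz
    rw [frontier_ball _ one_ne_zero] at hz
    have hz1 : ‖z‖ = 1 := by simpa using hz
    have hzz : z * (starRingEnd ℂ) z = 1 := by
      rw [Complex.mul_conj, Complex.normSq_eq_norm_sq, hz1]
      simp
    have hG1 : G z = z * ⟪U z, A (fun _ => U z)⟫_ℂ := by
      have h1 : ⟪U z, A (fun _ => U z)⟫_ℂ = ⟪x, A (fun _ => U z)⟫_ℂ +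
          (starRingEnd ℂ) ((r : ℂ) * z) * ⟪y, A (fun _ => U z)⟫_ℂ := by
        rw [← inner_smul_left, ← inner_add_left]
      rw [h1, map_mul, Complex.conj_ofReal]
      simp only [hG]
      linear_combination (-(r : ℂ) * ⟪y, A (fun _ => U z)⟫_ℂ) * hzz
    have hUn : ‖U z‖ ≤ ‖(α : ℂ) + β * z‖ := by
      have h1 : ‖U z‖ ^ 2 = 1 + r ^ 2 + 2 * (r * (c * z).re) := by
        simp only [hU]
        rw [@norm_add_sq ℂ, hx, norm_smul, hy, norm_mul, hz1, inner_smul_right, ← hc,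
          Complex.norm_real, Real.norm_of_nonneg hr.le]
        have : RCLike.re ((r : ℂ) * z * c) = r * (c * z).re := by
          rw [mul_assoc, mul_comm z c]
          simp
        rw [this]
        ring
      have h2 : ‖(α : ℂ) + β * z‖ ^ 2 = α ^ 2 + ‖β * z‖ ^ 2 + 2 * (α * (β * z).re) := by
        rw [Complex.sq_norm, Complex.sq_norm, Complex.normSq_apply, Complex.normSq_apply]
        simp only [Complex.add_re, Complex.add_im, Complex.ofReal_re, Complex.ofReal_im]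
        ring
      have h3 : α * (β * z).re = r * (c * z).re := by
        have h4 : (α : ℂ) * (β * z) = (r : ℂ) * (c * z) := by
          have h5 : (α : ℂ) ≠ 0 := by exact_mod_cast hαpos.ne'
          rw [hβ]
          field_simp
        have h6 := congrArg Complex.re h4
        simpa only [Complex.re_ofReal_mul] using h6
      have h7 : ‖U z‖ ^ 2 ≤ ‖(α : ℂ) + β * z‖ ^ 2 := by
        rw [h1, h2, h3, hα2]
        nlinarith [sq_nonneg ‖β * z‖]
      exact (pow_le_pow_iff_left₀ (norm_nonneg _) (norm_nonneg _) two_ne_zero).mp h7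
    have hpos : 0 < ‖(α : ℂ) + β * z‖ := norm_pos_iff.mpr (hne z hz1.le)
    simp only [hF]
    rw [norm_div, norm_pow, div_le_iff₀ (by positivity), hG1, norm_mul, hz1, one_mul]
    calc ‖⟪U z, A (fun _ => U z)⟫_ℂ‖ ≤ polyRadius A * ‖U z‖ ^ (k + 1) := inner_le_radius A _
      _ ≤ polyRadius A * ‖(α : ℂ) + β * z‖ ^ (k + 1) := by
        have := polyRadius_nonneg A
        gcongr
  have h0 := Complex.norm_le_of_forall_mem_frontier_norm_le Metric.isBounded_ball hFd hbd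
    (z := 0) (subset_closure (Metric.mem_ball_self one_pos))
  simp only [hF, hG, hU, mul_zero, zero_smul, add_zero, zero_mul, zero_add] at h0
  rw [norm_div, norm_pow, norm_mul, Complex.norm_real, Complex.norm_real,
    Real.norm_of_nonneg hr.le, Real.norm_of_nonneg hαpos.le, div_le_iff₀ (by positivity)] at h0
  exact h0

lemma const_eq (hk : 1 ≤ k) :
    √((k : ℝ) ^ k / ((k : ℝ) + 1) ^ (k + 1)) * √(1 + (√(k : ℝ))⁻¹ ^ 2) ^ (k + 1) =
      (√(k : ℝ))⁻¹ := by
  have hk0 : (0 : ℝ) < k := by exact_mod_cast hk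
  have hs : 0 < √(k : ℝ) := Real.sqrt_pos.mpr hk0
  have h1 : (√(k : ℝ))⁻¹ ^ 2 = (k : ℝ)⁻¹ := by rw [inv_pow, Real.sq_sqrt hk0.le]
  apply (pow_left_inj₀ (by positivity) (by positivity) two_ne_zero).mp
  rw [mul_pow, Real.sq_sqrt (by positivity), ← pow_mul, mul_comm (k + 1) 2, pow_mul,
    Real.sq_sqrt (by positivity), h1]
  have h2 : 1 + (k : ℝ)⁻¹ = ((k : ℝ) + 1) / k := by field_simp
  rw [h2, div_pow]
  field_simp
  ring

lemma lower (hk : 1 ≤ k) (A : ContinuousMultilinearMap ℂ (fun _ : Fin k => H) H) (x : H)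
    (hx : ‖x‖ = 1) :
    √((k : ℝ) ^ k / ((k : ℝ) + 1) ^ (k + 1)) * ‖A (fun _ => x)‖ ≤ polyRadius A := by
  by_cases h0 : A (fun _ => x) = 0
  · rw [h0, norm_zero, mul_zero]
    exact polyRadius_nonneg A
  · have hk0 : (0 : ℝ) < k := by exact_mod_cast hk
    have hs : 0 < √(k : ℝ) := Real.sqrt_pos.mpr hk0
    set w : H := A (fun _ => x) with hw
    have hn : (0 : ℝ) < ‖w‖ := norm_pos_iff.mpr h0
    set y : H := ((‖w‖⁻¹ : ℝ) : ℂ) • w with hy
    have hy1 : ‖y‖ = 1 := by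
      rw [hy, norm_smul, Complex.norm_real, norm_inv, norm_norm, inv_mul_cancel₀ hn.ne']
    have h1 := main_estimate A x y hx hy1 (√(k : ℝ))⁻¹ (by positivity)
    have h2 : ‖⟪y, w⟫_ℂ‖ = ‖w‖ := by
      rw [hy, inner_smul_left, inner_self_eq_norm_sq_to_K, norm_mul, Complex.norm_conj,
        Complex.norm_real, norm_inv, norm_norm, norm_pow, RCLike.norm_ofReal, abs_norm]
      field_simp
    rw [← hw, h2] at h1
    have h3 : 0 < √(1 + (√(k : ℝ))⁻¹ ^ 2) ^ (k + 1) := by positivity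
    refine le_of_mul_le_mul_right ?_ h3
    rw [mul_right_comm, const_eq hk]
    exact h1

lemma bern (u : ℝ) (hu : 0 ≤ u) (n : ℕ) : u ^ n * (1 + n * (1 - u)) ≤ 1 := by
  induction n with
  | zero => simp
  | succ n ih =>
    have h1 : u * (1 + ((n : ℝ) + 1) * (1 - u)) ≤ 1 + n * (1 - u) := by
      have : (0 : ℝ) ≤ ((n : ℝ) + 1) * (1 - u) ^ 2 := by positivity
      nlinarith
    calc u ^ (n + 1) * (1 + ((n + 1 : ℕ) : ℝ) * (1 - u))
        = u ^ n * (u * (1 + ((n : ℝ) + 1) * (1 - u))) := by push_cast; ring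
      _ ≤ u ^ n * (1 + n * (1 - u)) := by gcongr
      _ ≤ 1 := ih

lemma amgm (hk : 1 ≤ k) (a b : ℝ) (hab : a ^ 2 + b ^ 2 ≤ 1) :
    a ^ k * b ≤ √((k : ℝ) ^ k / ((k : ℝ) + 1) ^ (k + 1)) := by
  have hk0 : (0 : ℝ) < k := by exact_mod_cast hk
  apply Real.le_sqrt_of_sq_le
  have h1 := bern (a ^ 2 * ((k : ℝ) + 1) / k) (by positivity) k
  have h2 : (a ^ 2 * ((k : ℝ) + 1) / k) ^ k * (1 + k * (1 - a ^ 2 * ((k : ℝ) + 1) / k)) =
      (a ^ 2) ^ k * (1 - a ^ 2) * (((k : ℝ) + 1) ^ (k + 1) / (k : ℝ) ^ k) := by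
    rw [div_pow, mul_pow]
    field_simp
    ring
  rw [h2] at h1
  rw [le_div_iff₀ (by positivity)]
  rw [← mul_div_assoc, div_le_iff₀ (by positivity), one_mul] at h1
  calc (a ^ k * b) ^ 2 * ((k : ℝ) + 1) ^ (k + 1)
      = (a ^ 2) ^ k * b ^ 2 * ((k : ℝ) + 1) ^ (k + 1) := by ring
    _ ≤ (a ^ 2) ^ k * (1 - a ^ 2) * ((k : ℝ) + 1) ^ (k + 1) := by
        gcongr
        linarith
    _ ≤ (k : ℝ) ^ k := h1

/-- The polynomial `x ↦ ⟪e, x⟫ ^ k • w`. -/
noncomputable def ext (k : ℕ) (e w : H) : ContinuousMultilinearMap ℂ (fun _ : Fin k => H) H :=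
  ((ContinuousMultilinearMap.mkPiAlgebra ℂ (Fin k) ℂ).compContinuousLinearMap
    (fun _ => innerSL ℂ e)).smulRight w

lemma ext_apply (e w x : H) : ext k e w (fun _ => x) = ⟪e, x⟫_ℂ ^ k • w := by
  simp [ext]

lemma ext_norm (e w : H) (he : ‖e‖ = 1) (hw : ‖w‖ = 1) : polyNorm (ext k e w) = 1 := by
  apply le_antisymm
  · apply polyNorm_le _ _ zero_le_one
    intro x hx
    rw [ext_apply, norm_smul, hw, mul_one, norm_pow]
    apply pow_le_one₀ (norm_nonneg _)
    have := norm_inner_le_norm (𝕜 := ℂ) e x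
    rwa [he, hx, mul_one] at this
  · have := le_polyNorm (ext k e w) e he
    rw [ext_apply, norm_smul, hw, mul_one, norm_pow, inner_self_eq_norm_sq_to_K, he] at this
    simpa using this

lemma ext_radius [CompleteSpace H] (hk : 1 ≤ k) (e w : H) (he : ‖e‖ = 1) (hw : ‖w‖ = 1)
    (hew : ⟪e, w⟫_ℂ = 0) :
    polyRadius (ext k e w) ≤ √((k : ℝ) ^ k / ((k : ℝ) + 1) ^ (k + 1)) := by
  apply polyRadius_le _ _ (Real.sqrt_nonneg _)
  intro x f hx hf hfx
  obtain ⟨v, rfl⟩ := (InnerProductSpace.toDual ℂ H).surjective f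
  rw [LinearIsometryEquiv.norm_map] at hf
  rw [InnerProductSpace.toDual_apply_apply] at hfx ⊢
  have hvx : v = x := (inner_eq_one_iff_of_norm_eq_one hf hx).mp hfx
  subst hvx
  rw [ext_apply, inner_smul_right, norm_mul, norm_pow]
  apply amgm hk _ _
  have hon : Orthonormal ℂ ![e, w] := by
    rw [orthonormal_vecCons_iff]
    refine ⟨he, ?_, ?_⟩
    · intro i
      fin_cases i
      simpa using hew
    · rw [orthonormal_subsingleton_iff]
      intro i
      fin_cases i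
      simpa using hw
  have hb := hon.sum_inner_products_le v (s := Finset.univ)
  rw [Fin.sum_univ_two, hx] at hb
  have h3 : ‖⟪v, w⟫_ℂ‖ = ‖⟪w, v⟫_ℂ‖ := norm_inner_symm v w
  rw [h3]
  simpa using hb

lemma exists_orthonormal_pair (h : 2 ≤ Module.rank ℂ H) :
    ∃ e w : H, ‖e‖ = 1 ∧ ‖w‖ = 1 ∧ ⟪e, w⟫_ℂ = 0 := by
  have h' : ((2 : ℕ) : Cardinal) ≤ Module.rank ℂ H := by exact_mod_cast h
  obtain ⟨v, hv⟩ := exists_linearIndependent_of_le_rank h'
  have hon := InnerProductSpace.gramSchmidtNormed_orthonormal hv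
  exact ⟨_, _, hon.1 0, hon.1 1, hon.2 (by decide)⟩

lemma rank_one_lower (h : Module.rank ℂ H = 1)
    (A : ContinuousMultilinearMap ℂ (fun _ : Fin k => H) H) (x : H) (hx : ‖x‖ = 1) :
    1 * ‖A (fun _ => x)‖ ≤ polyRadius A := by
  have hx0 : x ≠ 0 := by
    intro h0
    rw [h0, norm_zero] at hx
    exact zero_ne_one hx
  have hf : Module.finrank ℂ H = 1 := Module.finrank_eq_of_rank_eq (by exact_mod_cast h)
  obtain ⟨c, hc⟩ := (finrank_eq_one_iff_of_nonzero' x hx0).mp hf (A (fun _ => x))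
  have h1 := inner_le_radius_unit A x hx
  rw [← hc, inner_smul_right, inner_self_eq_norm_sq_to_K, hx] at h1
  rw [← hc, norm_smul, hx]
  simpa using h1

end Hilbert

/-- **The polynomial numerical indices of complex Hilbert spaces.** For every `k ≥ 1`, the `k`-th
polynomial numerical index of a complex Hilbert space is `1` in dimension one and
`√(k ^ k / (k + 1) ^ (k + 1))` in every (finite or infinite) dimension at least two. -/
theorem result (H : Type u) [NormedAddCommGroup H] [InnerProductSpace ℂ H] [CompleteSpace H]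
    (k : ℕ) (hk : 1 ≤ k) :
    (Module.rank ℂ H = 1 → polyIndex k H = 1) ∧
    (2 ≤ Module.rank ℂ H → polyIndex k H = √((k : ℝ) ^ k / ((k : ℝ) + 1) ^ (k + 1))) := by
  constructor
  · intro h
    apply polyIndex_eq 1 one_pos (rank_one_lower h)
    have hnt : Nontrivial H := rank_pos_iff_nontrivial.mp (by rw [h]; exact one_pos)
    obtain ⟨e, he⟩ := exists_norm_eq H zero_le_one
    refine ⟨ext k e e, ext_norm e e he he, ?_⟩
    apply polyRadius_le _ _ zero_le_one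
    intro x f hx hf _
    calc ‖f (ext k e e (fun _ => x))‖ ≤ ‖f‖ * ‖ext k e e (fun _ => x)‖ := f.le_opNorm _
      _ ≤ polyNorm (ext k e e) := by
          rw [hf, one_mul]
          exact le_polyNorm _ x hx
      _ = 1 := ext_norm e e he he
  · intro h
    have hk0 : (0 : ℝ) < k := by exact_mod_cast hk
    apply polyIndex_eq _ (Real.sqrt_pos.mpr (by positivity)) (lower hk)
    obtain ⟨e, w, he, hw, hew⟩ := exists_orthonormal_pair h
    exact ⟨ext k e w, ext_norm e w he hw, ext_radius hk e w he hw hew⟩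

end Pool.Agent.Results.MP_8db9bd_an.HilbertIndex
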